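import Pool.Agent.MP_be51b2_an.Mg.Main

/-!
A projective Banach lattice without a topological order unit that is not free.
-/

namespace Pool.Agent.MP_be51b2_an.Old.Counterexample

open Pool.Agent.MP_be51b2_an

universe w

/-- There is a projective Banach lattice with no topological order unit which is not the free
Banach lattice over any nonempty set. -/
theorem result : ∃ (P : Type) (_ : NormedAddCommGroup P) (_ : NormedSpace ℝ P) (_ : Lattice P)
    (_ : IsBanachLattice P), IsProjective P ∧ (∀ e : P, ¬ IsTopOrderUnit e) ∧
      ∀ (A : Type w) (_ : Nonempty A) (δ : A → P), ¬ IsFreeOn δ :=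
  ⟨PP, inferInstance, inferInstance, inferInstance, inferInstance, projective_PP, no_unit,
    fun _ _ δ => not_free δ⟩

end Pool.Agent.MP_be51b2_an.Old.Counterexample
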